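import Mathlib
import Pool.Agent.H14.Hyper

set_option autoImplicit false

namespace Pool.Agent.Results.MP_550623_an.Counter

theorem result : ∀ (𝕜 : Type) [RCLike 𝕜],
    ∃ (X : Type) (_ : NormedAddCommGroup X) (_ : NormedSpace 𝕜 X) (_ : CompleteSpace X)
      (_ : TopologicalSpace.SeparableSpace X) (_ : Nontrivial X) (T : X →L[𝕜] X),
      DenseRange T ∧ Dense {x : X | ∃ n : ℕ, 1 ≤ n ∧ (T ^ n) x = 0} ∧
      (¬ ∀ U V : Set X, IsOpen U → IsOpen V → U.Nonempty → V.Nonempty →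
        ∃ N : ℕ, ∀ n : ℕ, N ≤ n → ((fun x : X => ((1 + T) ^ n) x) '' U ∩ V).Nonempty) ∧
      ¬ ∃ x : X, Dense (Set.range fun n : ℕ => ((1 + T) ^ n) x) := by
  intro 𝕜 _
  refine ⟨Pool.Agent.H14.Hyper.XX 𝕜, inferInstance, inferInstance, inferInstance, inferInstance,
    inferInstance, Pool.Agent.H14.Hyper.T 𝕜, Pool.Agent.H14.Hyper.T_denseRange 𝕜,
    Pool.Agent.H14.Hyper.T_denseKer 𝕜, fun h => ?_,
    fun ⟨x, hx⟩ => Pool.Agent.H14.Hyper.not_hyper 𝕜 x hx⟩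
  obtain ⟨U, V, hU, hV, hU', hV', N, hN⟩ := Pool.Agent.H14.Hyper.not_mixing 𝕜
  obtain ⟨M, hM⟩ := h U V hU hV hU' hV'
  have h1 := hM (max M N) (le_max_left _ _)
  rw [hN _ (le_max_right _ _)] at h1
  exact Set.not_nonempty_empty h1

end Pool.Agent.Results.MP_550623_an.Counter
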